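import Pool.Agent.W23.DC.Defs
import Pool.Agent.H442R2.BX.Fi

set_option autoImplicit false

/-!
DC project, task FIF: the Bessel inequality for the rough moduli up to `N^θ`, factorable above
`N^(51/100)`, from the statement BKF for one coarse block.
-/

namespace Pool.Agent.W583.DC

open Finset
open Pool.Agent.H442R2
open Pool.Agent.H442R2.KF
open Pool.Agent.W23.DC

/-- the Bessel inequality for all families of moduli with the property `P` -/
def QQ (P : ℕ → ℕ → Prop) : Prop := ∃ (η C : ℝ), 0 < η ∧ 0 < C ∧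
    ∀ N : ℕ, 2 ≤ N → ∀ f : ℕ → ℝ, (∀ p, |f p| ≤ 1) → ∀ A : Finset ℤ, (∀ a ∈ A, |(a : ℝ)| ≤ N) →
    ∀ T : ℤ → Finset ℕ, (∀ a ∈ A, ∀ d ∈ T a, P N d) →
    ∑ a ∈ A, (∑ d ∈ T a, |BX.Df f N a d|) ^ 2 ≤
      C * (N / Real.log N) ^ 2 * (1 + A.card * (N : ℝ) ^ (-η))

theorem QQ_mono (P P' : ℕ → ℕ → Prop) (h : ∀ N d, 2 ≤ N → P' N d → P N d) (hP : QQ P) : QQ P' := by
  obtain ⟨η, C, hη, hC, H⟩ := hP
  exact ⟨η, C, hη, hC, fun N hN f hf A hA T hT =>
    H N hN f hf A hA T (fun a ha d hd => h N d hN (hT a ha d hd))⟩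

theorem QQ_or (P P' : ℕ → ℕ → Prop) (hP : QQ P) (hP' : QQ P') : QQ (fun N d => P N d ∨ P' N d) := by
  classical
  obtain ⟨η, C, hη, hC, H⟩ := hP
  obtain ⟨η', C', hη', hC', H'⟩ := hP'
  refine ⟨min η η', 2 * (C + C'), lt_min hη hη', by positivity, ?_⟩
  intro N hN f hf A hA T hT
  have hN1 : (1 : ℝ) ≤ N := by exact_mod_cast (by omega : 1 ≤ N)
  have h1 := H N hN f hf A hA (fun a => (T a).filter (fun d => P N d)) (by
    intro a _ d hd
    exact (Finset.mem_filter.1 hd).2)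
  have h2 := H' N hN f hf A hA (fun a => (T a).filter (fun d => ¬ P N d)) (by
    intro a ha d hd
    rcases hT a ha d (Finset.mem_filter.1 hd).1 with h | h
    · exact absurd h (Finset.mem_filter.1 hd).2
    · exact h)
  have e1 : (N : ℝ) ^ (-η) ≤ (N : ℝ) ^ (-(min η η')) :=
    Real.rpow_le_rpow_of_exponent_le hN1 (neg_le_neg (min_le_left _ _))
  have e2 : (N : ℝ) ^ (-η') ≤ (N : ℝ) ^ (-(min η η')) :=
    Real.rpow_le_rpow_of_exponent_le hN1 (neg_le_neg (min_le_right _ _))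
  have hA0 : (0 : ℝ) ≤ A.card := Nat.cast_nonneg _
  have hQ : 0 ≤ ((N : ℝ) / Real.log N) ^ 2 := by positivity
  have g1 : C * (N / Real.log N) ^ 2 * (1 + A.card * (N : ℝ) ^ (-η)) ≤
      C * (N / Real.log N) ^ 2 * (1 + A.card * (N : ℝ) ^ (-(min η η'))) := by
    apply mul_le_mul_of_nonneg_left _ (by positivity)
    have := mul_le_mul_of_nonneg_left e1 hA0
    linarith
  have g2 : C' * (N / Real.log N) ^ 2 * (1 + A.card * (N : ℝ) ^ (-η')) ≤
      C' * (N / Real.log N) ^ 2 * (1 + A.card * (N : ℝ) ^ (-(min η η'))) := by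
    apply mul_le_mul_of_nonneg_left _ (by positivity)
    have := mul_le_mul_of_nonneg_left e2 hA0
    linarith
  have hsplit : ∀ a ∈ A, (∑ d ∈ T a, |BX.Df f N a d|) ^ 2 ≤
      2 * (∑ d ∈ (T a).filter (fun d => P N d), |BX.Df f N a d|) ^ 2 +
      2 * (∑ d ∈ (T a).filter (fun d => ¬ P N d), |BX.Df f N a d|) ^ 2 := by
    intro a _
    rw [← Finset.sum_filter_add_sum_filter_not (T a) (fun d => P N d)]
    nlinarith [sq_nonneg (∑ d ∈ (T a).filter (fun d => P N d), |BX.Df f N a d| -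
      ∑ d ∈ (T a).filter (fun d => ¬ P N d), |BX.Df f N a d|)]
  calc ∑ a ∈ A, (∑ d ∈ T a, |BX.Df f N a d|) ^ 2
      ≤ ∑ a ∈ A, (2 * (∑ d ∈ (T a).filter (fun d => P N d), |BX.Df f N a d|) ^ 2 +
        2 * (∑ d ∈ (T a).filter (fun d => ¬ P N d), |BX.Df f N a d|) ^ 2) :=
        Finset.sum_le_sum hsplit
    _ = 2 * ∑ a ∈ A, (∑ d ∈ (T a).filter (fun d => P N d), |BX.Df f N a d|) ^ 2 +
        2 * ∑ a ∈ A, (∑ d ∈ (T a).filter (fun d => ¬ P N d), |BX.Df f N a d|) ^ 2 := by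
        rw [Finset.sum_add_distrib, Finset.mul_sum, Finset.mul_sum]
    _ ≤ 2 * (C * (N / Real.log N) ^ 2 * (1 + A.card * (N : ℝ) ^ (-(min η η')))) +
        2 * (C' * (N / Real.log N) ^ 2 * (1 + A.card * (N : ℝ) ^ (-(min η η')))) := by
        linarith
    _ = 2 * (C + C') * (N / Real.log N) ^ 2 * (1 + A.card * (N : ℝ) ^ (-(min η η'))) := by ring

open BX.TaskFI in
/-- all factorable rough moduli up to `N^θ`, from one coarse block -/
theorem QQ_fac (hBKF : St_BKF) (θ δ ε : ℝ) (hθ1 : 1 / 2 ≤ θ) (hθ2 : θ < 5 / 9) (hδ : 0 < δ)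
    (hε : 0 < ε) : QQ (fun N d => (d : ℝ) ≤ (N : ℝ) ^ θ ∧ BX.Rough ((N : ℝ) ^ ε) d ∧
      FX.FacD N θ δ d) := by
  classical
  obtain ⟨ε₀, η, C, hε₀, hη, hC, hbk⟩ := hBKF θ δ ε hθ1 hθ2 hδ hε
  obtain ⟨ε₁, hε₁def⟩ : ∃ ε₁ : ℝ, ε₁ = ε₀ / 2 := ⟨_, rfl⟩
  have hε₁ : 0 < ε₁ := by rw [hε₁def]; linarith
  obtain ⟨I, hIdef⟩ : ∃ I : ℕ, I = ⌈1 / ε₁⌉₊ := ⟨_, rfl⟩
  have hI1 : 1 ≤ (I : ℝ) * ε₁ := by
    have h : 1 / ε₁ ≤ (I : ℝ) := by rw [hIdef]; exact Nat.le_ceil _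
    rwa [div_le_iff₀ hε₁] at h
  obtain ⟨N₀, hN₀def⟩ : ∃ N₀ : ℝ, N₀ = (2 : ℝ) ^ (1 / ε₁) := ⟨_, rfl⟩
  have hN₀1 : 1 ≤ N₀ := by
    rw [hN₀def]; exact Real.one_le_rpow (by norm_num) (by positivity)
  have hN₀0 : 0 < N₀ := by linarith
  refine ⟨η, (I : ℝ) ^ 2 * C + 4 * N₀ ^ 4 * N₀ ^ η, hη, by positivity, ?_⟩
  intro N hN f hf A hA T hT
  have hN1 : (1 : ℝ) ≤ N := by exact_mod_cast (by omega : 1 ≤ N)
  have hN2 : (2 : ℝ) ≤ N := by exact_mod_cast hN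
  have hN0 : (0 : ℝ) < N := by linarith
  have hlog : 0 < Real.log N := Real.log_pos (by linarith)
  have hR0 : 0 ≤ 1 + (A.card : ℝ) * (N : ℝ) ^ (-η) := by positivity
  have hQ1 : 1 ≤ ((N : ℝ) / Real.log N) ^ 2 := by
    have h1 : 1 ≤ (N : ℝ) / Real.log N := by
      rw [le_div_iff₀ hlog, one_mul]
      exact (Real.log_le_sub_one_of_pos hN0).trans (by linarith)
    nlinarith
  have hTle : ∀ a ∈ A, ∀ d ∈ T a, (d : ℝ) ≤ (N : ℝ) ^ θ := fun a ha d hd => (hT a ha d hd).1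
  have hTN : ∀ a ∈ A, T a ⊆ Icc 1 N := by
    intro a ha d hd
    have h1 := (hT a ha d hd).2.1.1
    have h2 : (d : ℝ) ≤ N := by
      calc (d : ℝ) ≤ (N : ℝ) ^ θ := hTle a ha d hd
        _ ≤ (N : ℝ) ^ (1 : ℝ) := Real.rpow_le_rpow_of_exponent_le hN1 (by linarith)
        _ = N := Real.rpow_one _
    rw [Finset.mem_Icc]
    exact ⟨by omega, by exact_mod_cast h2⟩
  rcases lt_or_ge (N : ℝ) N₀ with hsmall | hlarge
  · have h1 := triv f hf N A T hTN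
    have hNη : N₀ ^ (-η) ≤ (N : ℝ) ^ (-η) :=
      Real.rpow_le_rpow_of_nonpos hN0 hsmall.le (by linarith)
    have hcancel : N₀ ^ η * N₀ ^ (-η) = 1 := by
      rw [← Real.rpow_add hN₀0]; simp
    calc _ ≤ (A.card : ℝ) * (4 * (N : ℝ) ^ 4) := h1
      _ ≤ (A.card : ℝ) * (4 * N₀ ^ 4) := by
          apply mul_le_mul_of_nonneg_left _ (Nat.cast_nonneg _)
          have := pow_le_pow_left₀ hN0.le hsmall.le 4
          linarith
      _ = (4 * N₀ ^ 4 * N₀ ^ η) * 1 * ((A.card : ℝ) * N₀ ^ (-η)) := by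
          have : (4 * N₀ ^ 4 * N₀ ^ η) * 1 * ((A.card : ℝ) * N₀ ^ (-η)) =
            (A.card : ℝ) * (4 * N₀ ^ 4) * (N₀ ^ η * N₀ ^ (-η)) := by ring
          rw [this, hcancel, mul_one]
      _ ≤ ((I : ℝ) ^ 2 * C + 4 * N₀ ^ 4 * N₀ ^ η) * ((N : ℝ) / Real.log N) ^ 2 *
          (1 + (A.card : ℝ) * (N : ℝ) ^ (-η)) := by
          have hc0 : 0 ≤ 4 * N₀ ^ 4 * N₀ ^ η := by positivity
          have hc1 : 0 ≤ (I : ℝ) ^ 2 * C := by positivity
          have hA0 : (0 : ℝ) ≤ A.card := Nat.cast_nonneg _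
          have e1 : (A.card : ℝ) * N₀ ^ (-η) ≤ 1 + (A.card : ℝ) * (N : ℝ) ^ (-η) := by
            have := mul_le_mul_of_nonneg_left hNη hA0
            linarith
          apply mul_le_mul _ e1 (by positivity) (by positivity)
          apply mul_le_mul _ hQ1 (by norm_num) (by positivity)
          linarith
  · have hN2' : 2 ≤ (N : ℝ) ^ ε₁ := by
      calc (2 : ℝ) = N₀ ^ ε₁ := by
            rw [hN₀def, ← Real.rpow_mul (by norm_num)]
            rw [one_div, inv_mul_cancel₀ hε₁.ne', Real.rpow_one]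
        _ ≤ (N : ℝ) ^ ε₁ := Real.rpow_le_rpow hN₀0.le hlarge hε₁.le
    obtain ⟨D, hD⟩ : ∃ D : ℕ → ℕ, ∀ i, D i = ⌊(N : ℝ) ^ ((i : ℝ) * ε₁)⌋₊ := ⟨_, fun _ => rfl⟩
    have hD1 : ∀ i, 1 ≤ D i := by
      intro i
      rw [hD]
      apply Nat.le_floor
      rw [Nat.cast_one]
      exact Real.one_le_rpow hN1 (by positivity)
    have hD0 : D 0 = 1 := by
      rw [hD]; simp
    have hDI : ∀ a ∈ A, ∀ d ∈ T a, d ≤ D I := by
      intro a ha d hd
      rw [hD]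
      apply Nat.le_floor
      calc (d : ℝ) ≤ (N : ℝ) ^ θ := hTle a ha d hd
        _ ≤ (N : ℝ) ^ ((I : ℝ) * ε₁) :=
          Real.rpow_le_rpow_of_exponent_le hN1 (by linarith)
    have hratio : ∀ i, (D (i + 1) : ℝ) ≤ (N : ℝ) ^ ε₀ * D i := by
      intro i
      have h1 : (D (i + 1) : ℝ) ≤ (N : ℝ) ^ (((i + 1 : ℕ) : ℝ) * ε₁) := by
        rw [hD]; exact Nat.floor_le (by positivity)
      have h2 : (N : ℝ) ^ ((i : ℝ) * ε₁) ≤ 2 * D i := by
        have h3 : (N : ℝ) ^ ((i : ℝ) * ε₁) < (D i : ℝ) + 1 := by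
          rw [hD]; exact Nat.lt_floor_add_one _
        have h4 : (1 : ℝ) ≤ D i := by exact_mod_cast hD1 i
        linarith
      calc (D (i + 1) : ℝ) ≤ (N : ℝ) ^ (((i + 1 : ℕ) : ℝ) * ε₁) := h1
        _ = (N : ℝ) ^ ε₁ * (N : ℝ) ^ ((i : ℝ) * ε₁) := by
            rw [← Real.rpow_add hN0]; congr 1; push_cast; ring
        _ ≤ (N : ℝ) ^ ε₁ * (2 * D i) := mul_le_mul_of_nonneg_left h2 (by positivity)
        _ = ((N : ℝ) ^ ε₁ * 2) * D i := by ring
        _ ≤ ((N : ℝ) ^ ε₁ * (N : ℝ) ^ ε₁) * D i := by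
            apply mul_le_mul_of_nonneg_right _ (Nat.cast_nonneg _)
            exact mul_le_mul_of_nonneg_left hN2' (by positivity)
        _ = (N : ℝ) ^ ε₀ * D i := by
            rw [← Real.rpow_add hN0]; congr 2; rw [hε₁def]; ring
    obtain ⟨Tb, hTb⟩ : ∃ Tb : ℕ → ℤ → Finset ℕ, ∀ i a,
        Tb i a = (T a).filter (fun d => D i < d ∧ d ≤ D (i + 1)) := ⟨_, fun _ _ => rfl⟩
    have hblock : ∀ i, ∑ a ∈ A, (∑ d ∈ Tb i a, |BX.Df f N a d|) ^ 2 ≤
        C * (N / Real.log N) ^ 2 * (1 + A.card * (N : ℝ) ^ (-η)) := by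
      intro i
      apply hbk N (D i) (min (D (i + 1)) ⌊(N : ℝ) ^ θ⌋₊) hN
      · calc ((min (D (i + 1)) ⌊(N : ℝ) ^ θ⌋₊ : ℕ) : ℝ) ≤ (⌊(N : ℝ) ^ θ⌋₊ : ℝ) := by
              exact_mod_cast min_le_right _ _
          _ ≤ (N : ℝ) ^ θ := Nat.floor_le (by positivity)
      · exact hD1 i
      · calc ((min (D (i + 1)) ⌊(N : ℝ) ^ θ⌋₊ : ℕ) : ℝ) ≤ (D (i + 1) : ℝ) := by
              exact_mod_cast min_le_left _ _
          _ ≤ _ := hratio i
      · exact hf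
      · exact hA
      · intro a ha d hd
        rw [hTb, Finset.mem_filter] at hd
        exact ⟨hd.2.1, le_min hd.2.2 (Nat.le_floor (hTle a ha d hd.1)), (hT a ha d hd.1).2.1,
          (hT a ha d hd.1).2.2⟩
    have hsplit : ∀ a ∈ A, ∑ d ∈ T a, |BX.Df f N a d| ≤
        ∑ i ∈ Finset.range I, ∑ d ∈ Tb i a, |BX.Df f N a d| := by
      intro a ha
      have hrw : ∑ i ∈ Finset.range I, ∑ d ∈ Tb i a, |BX.Df f N a d| =
          ∑ d ∈ T a, ∑ i ∈ Finset.range I,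
            (if D i < d ∧ d ≤ D (i + 1) then |BX.Df f N a d| else 0) := by
        rw [Finset.sum_comm]
        apply Finset.sum_congr rfl
        intro i _
        rw [hTb, Finset.sum_filter]
      rw [hrw]
      apply Finset.sum_le_sum
      intro d hd
      obtain ⟨i, hi, h1, h2⟩ := block D I d (by
        rw [hD0]; exact (hT a ha d hd).2.1.1) (hDI a ha d hd)
      have h3 := Finset.single_le_sum (f := fun i =>
        (if D i < d ∧ d ≤ D (i + 1) then |BX.Df f N a d| else 0))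
        (fun j _ => by
          show 0 ≤ (if D j < d ∧ d ≤ D (j + 1) then |BX.Df f N a d| else 0)
          split_ifs
          · exact abs_nonneg _
          · exact le_refl _) hi
      have h4 : (if D i < d ∧ d ≤ D (i + 1) then |BX.Df f N a d| else 0) = |BX.Df f N a d| :=
        if_pos ⟨h1, h2⟩
      calc |BX.Df f N a d| = (if D i < d ∧ d ≤ D (i + 1) then |BX.Df f N a d| else 0) := h4.symm
        _ ≤ _ := h3
    calc ∑ a ∈ A, (∑ d ∈ T a, |BX.Df f N a d|) ^ 2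
        ≤ ∑ a ∈ A, (∑ i ∈ Finset.range I, ∑ d ∈ Tb i a, |BX.Df f N a d|) ^ 2 :=
          Finset.sum_le_sum (fun a ha => pow_le_pow_left₀
            (Finset.sum_nonneg (fun _ _ => abs_nonneg _)) (hsplit a ha) 2)
      _ ≤ ∑ a ∈ A, (I : ℝ) * ∑ i ∈ Finset.range I, (∑ d ∈ Tb i a, |BX.Df f N a d|) ^ 2 := by
          apply Finset.sum_le_sum
          intro a _
          have := sq_sum_le_card_mul_sum_sq (s := Finset.range I)
            (f := fun i => ∑ d ∈ Tb i a, |BX.Df f N a d|)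
          simpa using this
      _ = (I : ℝ) * ∑ i ∈ Finset.range I, ∑ a ∈ A, (∑ d ∈ Tb i a, |BX.Df f N a d|) ^ 2 := by
          rw [← Finset.mul_sum, Finset.sum_comm]
      _ ≤ (I : ℝ) * ∑ i ∈ Finset.range I,
            (C * (N / Real.log N) ^ 2 * (1 + A.card * (N : ℝ) ^ (-η))) := by
          apply mul_le_mul_of_nonneg_left _ (Nat.cast_nonneg _)
          exact Finset.sum_le_sum (fun i _ => hblock i)
      _ = ((I : ℝ) ^ 2 * C) * (N / Real.log N) ^ 2 * (1 + A.card * (N : ℝ) ^ (-η)) := by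
          rw [Finset.sum_const, Finset.card_range, nsmul_eq_mul]; ring
      _ ≤ ((I : ℝ) ^ 2 * C + 4 * N₀ ^ 4 * N₀ ^ η) * ((N : ℝ) / Real.log N) ^ 2 *
          (1 + (A.card : ℝ) * (N : ℝ) ^ (-η)) := by
          apply mul_le_mul_of_nonneg_right _ hR0
          apply mul_le_mul_of_nonneg_right _ (by positivity)
          have : 0 ≤ 4 * N₀ ^ 4 * N₀ ^ η := by positivity
          linarith

/-- in a narrow window the condition `FacO` gives `FacD` -/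
theorem facD_of_facO (N : ℕ) (hN : 1 ≤ N) (θ δ κ : ℝ) (hκ0 : 0 < κ) (hκ : κ ≤ δ / 14) (d : ℕ)
    (h1 : (N : ℝ) ^ (θ - κ) < d) (h : FacO N δ d) : FX.FacD N θ (δ / 2) d := by
  obtain ⟨hsq, s, hs, hlo, hup⟩ := h
  have hN1 : (1 : ℝ) ≤ N := by exact_mod_cast hN
  have hN0 : (0 : ℝ) < N := by linarith
  have hp : 0 < (N : ℝ) ^ (θ - κ) := Real.rpow_pos_of_pos hN0 _
  refine ⟨hsq, s, hs, ?_, ?_⟩
  · calc (N : ℝ) ^ (2 * θ - 1 + δ / 2) ≤ (N : ℝ) ^ (2 * (θ - κ) + (δ - 1)) :=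
          Real.rpow_le_rpow_of_exponent_le hN1 (by linarith)
      _ = ((N : ℝ) ^ (θ - κ)) ^ 2 * (N : ℝ) ^ (δ - 1) := by
          rw [Real.rpow_add hN0, ← Real.rpow_natCast, ← Real.rpow_mul hN0.le]
          congr 2
          push_cast
          ring
      _ ≤ (d : ℝ) ^ 2 * (N : ℝ) ^ (δ - 1) := by
          apply mul_le_mul_of_nonneg_right _ (Real.rpow_nonneg hN0.le _)
          exact pow_le_pow_left₀ hp.le h1.le 2
      _ ≤ s := hlo
  · have h7 : 0 < ((N : ℝ) ^ (θ - κ)) ^ 7 := by positivity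
    have e1 : (s : ℝ) * ((N : ℝ) ^ (θ - κ)) ^ 7 ≤ (N : ℝ) ^ (4 - δ) := by
      calc (s : ℝ) * ((N : ℝ) ^ (θ - κ)) ^ 7 ≤ (s : ℝ) * (d : ℝ) ^ 7 := by
            apply mul_le_mul_of_nonneg_left _ (Nat.cast_nonneg _)
            exact pow_le_pow_left₀ hp.le h1.le 7
        _ ≤ _ := hup
    have e2 : (N : ℝ) ^ (4 - δ) ≤ (N : ℝ) ^ (4 - 7 * θ - δ / 2) * ((N : ℝ) ^ (θ - κ)) ^ 7 := by
      rw [← Real.rpow_natCast ((N : ℝ) ^ (θ - κ)) 7, ← Real.rpow_mul hN0.le,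
        ← Real.rpow_add hN0]
      apply Real.rpow_le_rpow_of_exponent_le hN1
      push_cast
      linarith
    exact le_of_mul_le_mul_right (e1.trans e2) h7

theorem FIF (hBKF : St_BKF) (hFI : BX.St_FI) : St_FIF := by
  classical
  intro θ δ ε hθ hδ hε
  obtain ⟨κ, hκdef⟩ : ∃ κ : ℝ, κ = min (δ / 14) ((5 / 9 - θ) / 2) := ⟨_, rfl⟩
  have hκ0 : 0 < κ := by rw [hκdef]; exact lt_min (by linarith) (by linarith)
  have hκ1 : κ ≤ δ / 14 := by rw [hκdef]; exact min_le_left _ _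
  have hκ2 : κ ≤ (5 / 9 - θ) / 2 := by rw [hκdef]; exact min_le_right _ _
  have key : ∀ j : ℕ, (51 / 100 : ℝ) + j * κ < 5 / 9 → QQ (fun N d =>
      (d : ℝ) ≤ (N : ℝ) ^ ((51 / 100 : ℝ) + j * κ) ∧ BX.Rough ((N : ℝ) ^ ε) d ∧
        ((d : ℝ) ≤ (N : ℝ) ^ (51 / 100 : ℝ) ∨ FacO N δ d)) := by
    intro j
    induction j with
    | zero =>
      intro _
      obtain ⟨η, C, hη, hC, H⟩ := hFI (51 / 100) ε (by norm_num) hε
      refine ⟨η, C, hη, hC, fun N hN f hf A hA T hT => H N hN f hf A hA T ?_⟩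
      intro a ha d hd
      have h := hT a ha d hd
      refine ⟨?_, h.2.1⟩
      have h1 := h.1
      simpa using h1
    | succ j ih =>
      intro hj
      have hκj : (51 / 100 : ℝ) + j * κ < 5 / 9 := by
        have : (51 / 100 : ℝ) + j * κ ≤ 51 / 100 + ((j + 1 : ℕ) : ℝ) * κ := by
          push_cast; nlinarith
        linarith
      have hj0 : (0 : ℝ) ≤ j * κ := by positivity
      have hw := QQ_fac hBKF (51 / 100 + ((j + 1 : ℕ) : ℝ) * κ) (δ / 2) ε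
        (by push_cast; nlinarith) hj (by linarith) hε
      refine QQ_mono _ _ ?_ (QQ_or _ _ (ih hκj) hw)
      intro N d hN h
      have hN1 : (1 : ℝ) ≤ N := by exact_mod_cast (by omega : 1 ≤ N)
      rcases le_or_gt (d : ℝ) ((N : ℝ) ^ ((51 / 100 : ℝ) + j * κ)) with hd | hd
      · exact Or.inl ⟨hd, h.2.1, h.2.2⟩
      · refine Or.inr ⟨h.1, h.2.1, ?_⟩
        have hFO : FacO N δ d := by
          rcases h.2.2 with h3 | h3
          · exfalso
            have : (N : ℝ) ^ (51 / 100 : ℝ) ≤ (N : ℝ) ^ ((51 / 100 : ℝ) + j * κ) :=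
              Real.rpow_le_rpow_of_exponent_le hN1 (by linarith)
            linarith
          · exact h3
        apply facD_of_facO N (by omega) _ δ κ hκ0 hκ1 d _ hFO
        have e : (51 / 100 : ℝ) + ((j + 1 : ℕ) : ℝ) * κ - κ = 51 / 100 + j * κ := by
          push_cast; ring
        rw [e]
        exact hd
  obtain ⟨j, hjdef⟩ : ∃ j : ℕ, j = ⌈(θ - 51 / 100) / κ⌉₊ := ⟨_, rfl⟩
  have hj1 : θ ≤ 51 / 100 + j * κ := by
    have h : (θ - 51 / 100) / κ ≤ (j : ℝ) := by rw [hjdef]; exact Nat.le_ceil _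
    rw [div_le_iff₀ hκ0] at h
    linarith
  have hj2 : (51 / 100 : ℝ) + j * κ < 5 / 9 := by
    rcases le_or_gt θ (51 / 100) with h | h
    · have : j = 0 := by
        rw [hjdef, Nat.ceil_eq_zero]
        apply div_nonpos_of_nonpos_of_nonneg (by linarith) hκ0.le
      rw [this]; norm_num
    · have h2 : (j : ℝ) < (θ - 51 / 100) / κ + 1 := by
        rw [hjdef]
        exact Nat.ceil_lt_add_one (div_nonneg (by linarith) hκ0.le)
      have h3 : (j : ℝ) * κ < ((θ - 51 / 100) / κ + 1) * κ := mul_lt_mul_of_pos_right h2 hκ0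
      have h4 : ((θ - 51 / 100) / κ + 1) * κ = θ - 51 / 100 + κ := by
        field_simp
      rw [h4] at h3
      linarith
  obtain ⟨η, C, hη, hC, H⟩ := key j hj2
  refine ⟨η, C, hη, hC, fun N hN f hf A hA => H N hN f hf A hA (fun _ => facR N θ ε δ) ?_⟩
  intro a _ d hd
  have hN1 : (1 : ℝ) ≤ N := by exact_mod_cast (by omega : 1 ≤ N)
  rw [facR, Finset.mem_filter, BX.roughs, Finset.mem_filter, Finset.mem_Icc] at hd
  refine ⟨?_, hd.1.2, hd.2⟩
  calc (d : ℝ) ≤ (⌊(N : ℝ) ^ θ⌋₊ : ℝ) := by exact_mod_cast hd.1.1.2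
    _ ≤ (N : ℝ) ^ θ := Nat.floor_le (by positivity)
    _ ≤ _ := Real.rpow_le_rpow_of_exponent_le hN1 hj1

end Pool.Agent.W583.DC
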